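import Pool.Agent.Helper68.EP.St1

/-!
# Project EP (MP_cb927e_an), module EME: measurability
-/

set_option autoImplicit false

open MeasureTheory Set Filter Topology
open scoped ENNReal RealInnerProductSpace

namespace Pool.Agent.Helper84.EP

open Pool.Agent.Helper68.LM (Pl BB Bd Av HL ft fm DQ)
open Pool.Agent.Helper68.EP
open Pool.Agent.Helper20.RG
open Pool.Agent.Helper20.RL (RQ Rich BM Fml)

theorem meas_forall_le {X : Type*} [MeasurableSpace X] (c : ℤ) (p : ℤ → X → Prop)
    (h : ∀ a, MeasurableSet {z | p a z}) : MeasurableSet {z | ∀ a : ℤ, a ≤ c → p a z} :=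
  measurableSet_setOf.2 (Measurable.forall fun a => Measurable.imp measurable_const (measurableSet_setOf.1 (h a)))

theorem hEME (hLFM : Pool.Agent.Helper20.RL.StLFM) (hEQ : StEQ) (hEFB : StEFB) (hEVF : StEVF) : StEME := by
  intro P Δ θ E hE hθ
  have hFo : ∀ (u q : ℕ) (k : ℤ), BM (Fo P u k q E) ∧ Fo P u k q E ⊆ E := by
    intro u q k
    obtain ⟨h1, h2, h3⟩ := hEFB.1 E (DD P u) (k - 2 ^ q)
    exact ⟨h3 hE, h1⟩
  have hLv : ∀ (u q : ℕ) (k : ℤ), MeasurableSet (Lv P u k q E) := fun u q k =>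
    (hFo u q k).1.1.diff (hFo u (q + 1) k).1.1
  have hV : ∀ (u j : ℕ) (k : ℤ), MeasurableSet (Vc P Δ u j k θ E) ∧
      ∀ w : ℤ, MeasurableSet {y | y ∈ Vc P Δ u j k θ E ∧ Bc P Δ u j k θ E y = w} := by
    intro u j k
    obtain ⟨-, h2, -, h4⟩ := hEVF P Δ u j k θ E hE hθ
    obtain ⟨-, h5, h6, -⟩ := h4 _ h2
    exact ⟨h5, h6⟩
  have hT : ∀ (u j : ℕ) (k : ℤ), MeasurableSet (Tc P Δ u j k θ E) := by
    intro u j k
    have he : Tc P Δ u j k θ E = ⋃ w : ℤ, (Fo P u k (q0 P u) E ∩
        {y | y ∈ Vc P Δ u j k θ E ∧ Bc P Δ u j k θ E y = w}) ∩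
        ({z | ∀ a : ℤ, a ≤ k - (u : ℤ) → Rich (Fo P u k (q0 P u) E) (Δ.sl u j) a w (θ / 8) z} ∩
        {z | ∀ q : ℕ, q0 P u ≤ q → q ≤ q1 P u → z ∈ Fo P u k q E → ∀ a : ℤ, a ≤ k - (u : ℤ) →
          Rich (Fo P u k q E) (Δ.sl u j) a w (et P u q * θ) z}) := by
      ext z
      simp only [Tc, mem_setOf_eq, mem_iUnion, mem_inter_iff]
      constructor
      · rintro ⟨h1, h2, h3, h4⟩
        exact ⟨Bc P Δ u j k θ E z, ⟨h1, h2, rfl⟩, h3, h4⟩
      · rintro ⟨w, ⟨h1, h2, rfl⟩, h3, h4⟩
        exact ⟨h1, h2, h3, h4⟩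
    rw [he]
    refine MeasurableSet.iUnion fun w => MeasurableSet.inter ((hFo u _ k).1.1.inter ((hV u j k).2 w)) ?_
    refine MeasurableSet.inter ?_ ?_
    · exact meas_forall_le _ _ fun a => (hLFM.1 _ _ _ _ _).1
    · refine measurableSet_setOf.2 (Measurable.forall fun q => Measurable.imp measurable_const
        (Measurable.imp measurable_const (Measurable.imp (measurableSet_setOf.1 (hFo u q k).1.1) ?_)))
      exact measurableSet_setOf.1 (meas_forall_le _ _ fun a => (hLFM.1 _ _ _ _ _).1)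
  refine ⟨fun u q k => ⟨(hFo u q k).1, (hFo u q k).2, hLv u q k⟩, fun u j k => ⟨(hV u j k).1, hT u j k⟩, ?_, ?_, ?_⟩
  · intro u j k M
    refine measurableSet_setOf.2 (Measurable.exists fun q => Measurable.and measurable_const
      (Measurable.and measurable_const (Measurable.and (measurableSet_setOf.1 (hLv u q k)) measurable_const)))
  · intro u₁ q u₂ j₂ k₂
    refine measurableSet_setOf.2 (Measurable.and (measurableSet_setOf.1 (hT u₂ j₂ k₂))
      (Measurable.exists fun j₁ => Measurable.and measurable_const (Measurable.exists fun k₁ =>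
        Measurable.and measurable_const (Measurable.and (measurableSet_setOf.1 (hT u₁ j₁ k₁))
          (Measurable.and (measurableSet_setOf.1 (hLv u₁ q k₁)) measurable_const)))))
  · intro ϑ θ'
    refine ⟨?_, hE.2.subset fun z hz => hz.1⟩
    have h6 := hEQ.2.2.2.2.2
    refine measurableSet_setOf.2 (Measurable.and (measurableSet_setOf.1 hE.1)
      (Measurable.exists fun b => Measurable.exists fun b' => Measurable.and measurable_const
        (Measurable.and ?_ ?_)))
    · exact measurableSet_setOf.1 (measurableSet_lt measurable_const (h6 E b').1)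
    · exact measurableSet_setOf.1 (measurableSet_lt (h6 E b).2 measurable_const)

end Pool.Agent.Helper84.EP
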