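import Pool.Agent.Helper68.EP.St5

/-!
# Project EP (MP_cb927e_an), module XB2: sum of the transversal hits over the classes
-/

set_option autoImplicit false

open MeasureTheory Set Filter Topology
open scoped ENNReal RealInnerProductSpace

namespace Pool.Agent.Helper84.EP

open Pool.Agent.Helper68.LM (Pl BB Bd Av HL ft fm DQ)
open Pool.Agent.Helper68.EP
open Pool.Agent.Helper20.RG
open Pool.Agent.Helper20.RL (RQ Rich BM Fml)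

theorem lin_le (g : ℝ) (hg : 0 < g) (u : ℕ) : (u : ℝ) ≤ 1 / (g * Real.log 2) * (2 : ℝ) ^ (g * u) := by
  have hl : 0 < Real.log 2 := Real.log_pos (by norm_num)
  have h1 : (2 : ℝ) ^ (g * u) = Real.exp (Real.log 2 * (g * u)) := Real.rpow_def_of_pos (by norm_num) _
  have h2 := Real.add_one_le_exp (Real.log 2 * (g * u))
  rw [← h1] at h2
  have h3 : 0 < g * Real.log 2 := mul_pos hg hl
  rw [div_mul_eq_mul_div, le_div_iff₀ h3]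
  nlinarith

theorem geo_le (g : ℝ) (hg : 0 < g) (a b : ℕ) :
    ∑ u ∈ Finset.Icc a b, (2 : ℝ) ^ (-(g * u)) ≤ (1 - (2 : ℝ) ^ (-g))⁻¹ := by
  have h0 : (0 : ℝ) ≤ (2 : ℝ) ^ (-g) := Real.rpow_nonneg (by norm_num) _
  have h1 : (2 : ℝ) ^ (-g) < 1 := Real.rpow_lt_one_of_one_lt_of_neg (by norm_num) (by linarith)
  have h2 : ∀ u : ℕ, (2 : ℝ) ^ (-(g * u)) = ((2 : ℝ) ^ (-g)) ^ u := by
    intro u
    rw [← Real.rpow_natCast, ← Real.rpow_mul (by norm_num)]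
    congr 1
    ring
  simp_rw [h2]
  rw [← tsum_geometric_of_lt_one h0 h1]
  exact (summable_geometric_of_lt_one h0 h1).sum_le_tsum _ (fun i _ => pow_nonneg h0 i)

theorem num (g s : ℝ) (hg : 0 < g) (hs : s = 1 + 64 * g) : ∃ u₀ : ℕ, ∀ (u₁ U₁ : ℕ) (θ : ℝ), u₀ ≤ u₁ →
    (2 : ℝ) ^ (-(g / 2 * u₁)) ≤ θ →
    ∑ u ∈ Finset.Icc u₁ U₁, (2 : ℝ) ^ u * u * (10 ^ 6 * (2 : ℝ) ^ (-(s * u)) / θ) ≤ (2 : ℝ) ^ (-(g * u₁)) := by
  set c : ℝ := 1 / (g * Real.log 2) with hc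
  have hl : 0 < Real.log 2 := Real.log_pos (by norm_num)
  have hc0 : 0 < c := by rw [hc]; positivity
  set K : ℝ := (1 - (2 : ℝ) ^ (-g))⁻¹ with hK
  have hK0 : 0 ≤ K := by
    have h1 : (2 : ℝ) ^ (-g) < 1 := Real.rpow_lt_one_of_one_lt_of_neg (by norm_num) (by linarith)
    rw [hK]
    exact inv_nonneg.2 (by linarith)
  obtain ⟨u₀, hu₀⟩ := exists_nat_ge (10 ^ 6 * c * K * c)
  refine ⟨u₀, fun u₁ U₁ θ h1 hθ => ?_⟩
  have hθ0 : 0 < θ := lt_of_lt_of_le (Real.rpow_pos_of_pos (by norm_num) _) hθ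
  have hbig : 10 ^ 6 * c * K ≤ (2 : ℝ) ^ (g * u₁) := by
    have h2 := lin_le g hg u₁
    rw [← hc] at h2
    have h3 : (u₀ : ℝ) ≤ u₁ := by exact_mod_cast h1
    have h4 : (10 ^ 6 * c * K) * c ≤ (2 : ℝ) ^ (g * u₁) * c := by linarith
    exact le_of_mul_le_mul_right h4 hc0
  have hterm : ∀ u ∈ Finset.Icc u₁ U₁, (2 : ℝ) ^ u * u * (10 ^ 6 * (2 : ℝ) ^ (-(s * u)) / θ) ≤
      (10 ^ 6 * c / θ * (2 : ℝ) ^ (-(62 * g * u₁))) * (2 : ℝ) ^ (-(g * u)) := by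
    intro u hu
    have hu1 : (u₁ : ℝ) ≤ u := by exact_mod_cast (Finset.mem_Icc.1 hu).1
    have e1 : (2 : ℝ) ^ u * (2 : ℝ) ^ (-(s * u)) = (2 : ℝ) ^ (-(64 * g * u)) := by
      rw [← Real.rpow_natCast, ← Real.rpow_add (by norm_num)]
      congr 1
      rw [hs]
      ring
    have e2 : (2 : ℝ) ^ u * u * (10 ^ 6 * (2 : ℝ) ^ (-(s * u)) / θ) =
        10 ^ 6 / θ * (u * (2 : ℝ) ^ (-(64 * g * u))) := by
      rw [← e1]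
      ring
    have e3 : (u : ℝ) * (2 : ℝ) ^ (-(64 * g * u)) ≤ c * ((2 : ℝ) ^ (-(62 * g * u₁)) * (2 : ℝ) ^ (-(g * u))) := by
      have h2 := lin_le g hg u
      rw [← hc] at h2
      calc (u : ℝ) * (2 : ℝ) ^ (-(64 * g * u)) ≤ (c * (2 : ℝ) ^ (g * u)) * (2 : ℝ) ^ (-(64 * g * u)) :=
            mul_le_mul_of_nonneg_right h2 (Real.rpow_nonneg (by norm_num) _)
        _ = c * (2 : ℝ) ^ (-(63 * g * u)) := by
            rw [mul_assoc, ← Real.rpow_add (by norm_num)]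
            congr 2
            ring
        _ ≤ c * ((2 : ℝ) ^ (-(62 * g * u₁)) * (2 : ℝ) ^ (-(g * u))) := by
            refine mul_le_mul_of_nonneg_left ?_ hc0.le
            rw [← Real.rpow_add (by norm_num)]
            refine Real.rpow_le_rpow_of_exponent_le (by norm_num) ?_
            nlinarith
    rw [e2]
    calc 10 ^ 6 / θ * (u * (2 : ℝ) ^ (-(64 * g * u))) ≤
          10 ^ 6 / θ * (c * ((2 : ℝ) ^ (-(62 * g * u₁)) * (2 : ℝ) ^ (-(g * u)))) :=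
          mul_le_mul_of_nonneg_left e3 (by positivity)
      _ = _ := by ring
  refine le_trans (Finset.sum_le_sum hterm) ?_
  rw [← Finset.mul_sum]
  have h5 : (10 ^ 6 * c / θ * (2 : ℝ) ^ (-(62 * g * u₁))) * ∑ u ∈ Finset.Icc u₁ U₁, (2 : ℝ) ^ (-(g * u)) ≤
      (10 ^ 6 * c / θ * (2 : ℝ) ^ (-(62 * g * u₁))) * K :=
    mul_le_mul_of_nonneg_left (geo_le g hg u₁ U₁) (by positivity)
  refine le_trans h5 ?_
  have hθ' : 1 / θ ≤ (2 : ℝ) ^ (g / 2 * u₁) := by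
    rw [div_le_iff₀ hθ0]
    have h6 : (2 : ℝ) ^ (g / 2 * u₁) * (2 : ℝ) ^ (-(g / 2 * u₁)) = 1 := by
      rw [← Real.rpow_add (by norm_num)]
      simp
    rw [← h6]
    exact mul_le_mul_of_nonneg_left hθ (Real.rpow_nonneg (by norm_num) _)
  calc (10 ^ 6 * c / θ * (2 : ℝ) ^ (-(62 * g * u₁))) * K =
        (10 ^ 6 * c * K) * (1 / θ) * (2 : ℝ) ^ (-(62 * g * u₁)) := by ring
    _ ≤ (2 : ℝ) ^ (g * u₁) * (2 : ℝ) ^ (g / 2 * u₁) * (2 : ℝ) ^ (-(62 * g * u₁)) := by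
        refine mul_le_mul_of_nonneg_right ?_ (Real.rpow_nonneg (by norm_num) _)
        exact mul_le_mul hbig hθ' (by positivity) (Real.rpow_nonneg (by norm_num) _)
    _ ≤ (2 : ℝ) ^ (-(g * u₁)) := by
        rw [← Real.rpow_add (by norm_num), ← Real.rpow_add (by norm_num)]
        refine Real.rpow_le_rpow_of_exponent_le (by norm_num) ?_
        have h7 : 0 ≤ g * (u₁ : ℝ) := by positivity
        nlinarith

theorem hXB2 (hEN1 : StEN1) (hXB1 : StXB1) : StXB2 := by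
  intro P
  obtain ⟨ua, hua, hEN⟩ := hEN1 P
  have hg : 0 < P.g := by
    have h1 := P.hs
    unfold Par.g
    linarith
  obtain ⟨ub, hnum⟩ := num P.g P.s hg (by unfold Par.g; ring)
  refine ⟨max ua ub, le_trans hua (le_max_left _ _), ?_⟩
  intro Δ ct U₀ U₁ u₁ j₁ k θ E hSy hU₀ hu₁ hU₁ hθ hθ1 hj₁ hE
  have hθ0 : 0 < θ := lt_of_lt_of_le (Real.rpow_pos_of_pos (by norm_num) _) hθ
  have hOk : ∀ u : ℕ, u₁ ≤ u → Ok P u θ ∧ (q1 P u : ℝ) - q0 P u ≤ u := by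
    intro u hu
    refine hEN u θ (le_trans (le_max_left _ _) (hU₀.trans (hu₁.trans hu))) ?_ hθ1
    refine le_trans ?_ hθ
    refine Real.rpow_le_rpow_of_exponent_le (by norm_num) ?_
    have h1 : (U₀ : ℝ) ≤ u := by exact_mod_cast hu₁.trans hu
    have h2 : (0 : ℝ) ≤ u := Nat.cast_nonneg _
    nlinarith
  let W : ℕ → ℕ → ℕ → Set Pl := fun u₂ j₂ q₂ =>
    {x | ∃ y₁ ∈ Vc P Δ u₁ j₁ k θ (E u₁), Nr P Δ ct u₁ j₁ k θ (E u₁) x y₁ ∧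
      ∃ y₂ ∈ Lc P Δ u₂ j₂ k θ (E u₂) q₂, Nr P Δ ct u₂ j₂ k θ (E u₂) x y₂ ∧
      (k - 2 ^ q₂ ≤ Bc P Δ u₁ j₁ k θ (E u₁) y₁ ∨
        (2 : ℝ) ^ (k - 2 ^ q₂) ≤ |Δ.sl u₁ j₁ - Δ.sl u₂ j₂| * (2 : ℝ) ^ (k - (u₂ : ℤ)))}
  have hsub : Bx P Δ ct U₁ u₁ j₁ k θ E ⊆ ⋃ u₂ ∈ Finset.Icc u₁ U₁, ⋃ j₂ ∈ Finset.range (2 ^ u₂),
      ⋃ q₂ ∈ Finset.Ico (q0 P u₂) (q1 P u₂), W u₂ j₂ q₂ := by
    rintro x ⟨y₁, hy₁, hN₁, u₂, h1, h2, j₂, h3, q₂, h4, h5, y₂, hy₂, hN₂, h6⟩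
    simp only [mem_iUnion]
    exact ⟨u₂, Finset.mem_Icc.2 ⟨h1, h2⟩, j₂, Finset.mem_range.2 h3, q₂, Finset.mem_Ico.2 ⟨h4, h5⟩,
      y₁, hy₁, hN₁, y₂, hy₂, hN₂, h6⟩
  set V : ℝ≥0∞ := volume (Vc P Δ u₁ j₁ k θ (E u₁)) with hV
  have hW : ∀ u₂ ∈ Finset.Icc u₁ U₁, volume (⋃ j₂ ∈ Finset.range (2 ^ u₂),
      ⋃ q₂ ∈ Finset.Ico (q0 P u₂) (q1 P u₂), W u₂ j₂ q₂) ≤
      ENNReal.ofReal ((2 : ℝ) ^ u₂ * u₂ * (10 ^ 6 * (2 : ℝ) ^ (-(P.s * u₂)) / θ)) * V := by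
    intro u₂ hu₂
    have hu12 := (Finset.mem_Icc.1 hu₂).1
    have hcard : q1 P u₂ - q0 P u₂ ≤ u₂ := by
      have h1 := (hOk u₂ hu12).2
      have h2 : (q1 P u₂ : ℝ) ≤ ((u₂ + q0 P u₂ : ℕ) : ℝ) := by
        push_cast
        linarith
      have h3 : q1 P u₂ ≤ u₂ + q0 P u₂ := by exact_mod_cast h2
      omega
    have hD : 0 ≤ 10 ^ 6 * (2 : ℝ) ^ (-(P.s * u₂)) / θ := by positivity
    calc volume (⋃ j₂ ∈ Finset.range (2 ^ u₂), ⋃ q₂ ∈ Finset.Ico (q0 P u₂) (q1 P u₂), W u₂ j₂ q₂) ≤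
          ∑ j₂ ∈ Finset.range (2 ^ u₂), volume (⋃ q₂ ∈ Finset.Ico (q0 P u₂) (q1 P u₂), W u₂ j₂ q₂) :=
          measure_biUnion_finset_le _ _
      _ ≤ ∑ j₂ ∈ Finset.range (2 ^ u₂), ∑ q₂ ∈ Finset.Ico (q0 P u₂) (q1 P u₂), volume (W u₂ j₂ q₂) :=
          Finset.sum_le_sum fun j₂ _ => measure_biUnion_finset_le _ _
      _ ≤ ∑ j₂ ∈ Finset.range (2 ^ u₂), ∑ q₂ ∈ Finset.Ico (q0 P u₂) (q1 P u₂),
          ENNReal.ofReal (10 ^ 6 * (2 : ℝ) ^ (-(P.s * u₂)) / θ) * V := by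
          refine Finset.sum_le_sum fun j₂ hj₂ => Finset.sum_le_sum fun q₂ hq₂ => ?_
          have hq := Finset.mem_Ico.1 hq₂
          exact hXB1 P Δ ct u₁ j₁ u₂ j₂ q₂ k θ (E u₁) (E u₂) hSy (hOk u₁ le_rfl).1 (hOk u₂ hu12).1 hu12 hj₁
            (Finset.mem_range.1 hj₂) hq.1 hq.2 (hE u₁) (hE u₂)
      _ = ((2 ^ u₂ : ℕ) : ℝ≥0∞) * (((q1 P u₂ - q0 P u₂ : ℕ) : ℝ≥0∞) *
          (ENNReal.ofReal (10 ^ 6 * (2 : ℝ) ^ (-(P.s * u₂)) / θ) * V)) := by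
          rw [Finset.sum_const, Finset.sum_const, nsmul_eq_mul, nsmul_eq_mul, Finset.card_range, Nat.card_Ico]
      _ ≤ ((2 ^ u₂ : ℕ) : ℝ≥0∞) * ((u₂ : ℝ≥0∞) *
          (ENNReal.ofReal (10 ^ 6 * (2 : ℝ) ^ (-(P.s * u₂)) / θ) * V)) := by
          gcongr
      _ = ENNReal.ofReal ((2 : ℝ) ^ u₂ * u₂ * (10 ^ 6 * (2 : ℝ) ^ (-(P.s * u₂)) / θ)) * V := by
          rw [ENNReal.ofReal_mul (by positivity), ENNReal.ofReal_mul (by positivity), ENNReal.ofReal_natCast,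
            ENNReal.ofReal_pow (by norm_num)]
          push_cast
          rw [ENNReal.ofReal_ofNat]
          ring
  calc volume (Bx P Δ ct U₁ u₁ j₁ k θ E) ≤ volume (⋃ u₂ ∈ Finset.Icc u₁ U₁, ⋃ j₂ ∈ Finset.range (2 ^ u₂),
        ⋃ q₂ ∈ Finset.Ico (q0 P u₂) (q1 P u₂), W u₂ j₂ q₂) := measure_mono hsub
    _ ≤ ∑ u₂ ∈ Finset.Icc u₁ U₁, volume (⋃ j₂ ∈ Finset.range (2 ^ u₂),
        ⋃ q₂ ∈ Finset.Ico (q0 P u₂) (q1 P u₂), W u₂ j₂ q₂) := measure_biUnion_finset_le _ _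
    _ ≤ ∑ u₂ ∈ Finset.Icc u₁ U₁,
        ENNReal.ofReal ((2 : ℝ) ^ u₂ * u₂ * (10 ^ 6 * (2 : ℝ) ^ (-(P.s * u₂)) / θ)) * V :=
        Finset.sum_le_sum hW
    _ = ENNReal.ofReal (∑ u₂ ∈ Finset.Icc u₁ U₁,
        (2 : ℝ) ^ u₂ * u₂ * (10 ^ 6 * (2 : ℝ) ^ (-(P.s * u₂)) / θ)) * V := by
        rw [← Finset.sum_mul, ENNReal.ofReal_sum_of_nonneg]
        intro i _
        positivity
    _ ≤ ENNReal.ofReal ((2 : ℝ) ^ (-(P.g * u₁))) * V := by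
        gcongr
        refine hnum u₁ U₁ θ (le_trans (le_max_right _ _) (hU₀.trans hu₁)) (le_trans ?_ hθ)
        refine Real.rpow_le_rpow_of_exponent_le (by norm_num) ?_
        have h1 : (U₀ : ℝ) ≤ u₁ := by exact_mod_cast hu₁
        nlinarith

end Pool.Agent.Helper84.EP
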